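import Pool.Agent.Lib_helper51.TM32.NDefs
import Pool.Agent.Lib_helper99.TM32.N1b
import Pool.Agent.Lib_helper67.TM32.N2a
import Pool.Agent.Lib_helper53.TM32.N1a

/-!
TM32, phase 2, block N2b: `rr` is the convolution of `aa` and `bb`.
-/

set_option autoImplicit false

namespace Pool.Agent.TM32

open Zsqrtd Filter Topology ArithmeticFunction

/-! STUBS (blocks N1a, N1b, N2a): delete these nine theorems and import the proved files -/

/-! END OF STUBS -/

theorem N2b_kap_one : kap (1 : Zs) = 1 := by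
  have h1 : ((1 : Zs).re % 2 = 0) = False := by norm_num
  have h2 : ((1 : Zs).im % 4 = 0) = True := by norm_num
  unfold kap
  simp only [h1, h2, if_false, if_true]

theorem N2b_kap_pow (x : Zs) (k : ℕ) : kap (x ^ k) = kap x ^ k := by
  induction k with
  | zero => rw [pow_zero, pow_zero, N2b_kap_one]
  | succ k ih => rw [pow_succ, kap_mul, ih, pow_succ]

theorem N2b_values (x : Zs) : kap x = 0 ∨ kap x = 1 ∨ kap x = -1 ∨ kap x = Complex.I ∨
    kap x = -Complex.I := by
  unfold kap
  split_ifs <;> simp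

theorem N2b_av_pow {p : ℕ} (hp : p.Prime) (k : ℕ) : aa (p ^ k) = av p ^ k := by
  induction k with
  | zero => simp [aa]
  | succ k ih =>
    have hpk : p ^ k ≠ 0 := pow_ne_zero _ hp.ne_zero
    rw [pow_succ, aa_mul hpk hp.ne_zero, ih, pow_succ]
    congr 1
    rw [aa, if_neg hp.ne_zero, Nat.primeFactorsList_prime hp]
    simp

theorem N2b_bv_pow {p : ℕ} (hp : p.Prime) (k : ℕ) : bb (p ^ k) = bv p ^ k := by
  induction k with
  | zero => simp [bb]
  | succ k ih =>
    have hpk : p ^ k ≠ 0 := pow_ne_zero _ hp.ne_zero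
    rw [pow_succ, bb_mul hpk hp.ne_zero, ih, pow_succ]
    congr 1
    rw [bb, if_neg hp.ne_zero, Nat.primeFactorsList_prime hp]
    simp

/-- the three arithmetic functions -/
noncomputable def N2b_A : ArithmeticFunction ℂ := ⟨aa, by simp [aa]⟩

noncomputable def N2b_B : ArithmeticFunction ℂ := ⟨bb, by simp [bb]⟩

noncomputable def N2b_R : ArithmeticFunction ℂ := ⟨fun n => if n = 0 then 0 else rr n, by simp⟩

theorem N2b_R_apply {n : ℕ} (hn : n ≠ 0) : N2b_R n = rr n := by
  change (if n = 0 then 0 else rr n) = rr n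
  rw [if_neg hn]

theorem N2b_A_mult : N2b_A.IsMultiplicative := by
  rw [ArithmeticFunction.IsMultiplicative.iff_ne_zero]
  refine ⟨?_, fun {m n} hm hn _ => aa_mul hm hn⟩
  change aa 1 = 1
  simp [aa]

theorem N2b_B_mult : N2b_B.IsMultiplicative := by
  rw [ArithmeticFunction.IsMultiplicative.iff_ne_zero]
  refine ⟨?_, fun {m n} hm hn _ => bb_mul hm hn⟩
  change bb 1 = 1
  simp [bb]

theorem N2b_rr_one : rr 1 = 1 := by
  have h := SN_two 0 kap kap_neg
  rw [pow_zero, pow_zero, N2b_kap_one] at h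
  rw [rr, h]
  norm_num

theorem N2b_R_mult : N2b_R.IsMultiplicative := by
  rw [ArithmeticFunction.IsMultiplicative.iff_ne_zero]
  refine ⟨?_, fun {m n} hm hn hc => ?_⟩
  · rw [N2b_R_apply one_ne_zero, N2b_rr_one]
  · rw [N2b_R_apply (mul_ne_zero hm hn), N2b_R_apply hm, N2b_R_apply hn]
    have h := SN_mul (Nat.pos_of_ne_zero hm) (Nat.pos_of_ne_zero hn) hc kap
    have h2 : ∑ x ∈ SN m, ∑ y ∈ SN n, kap (x * y) = (∑ x ∈ SN m, kap x) * ∑ y ∈ SN n, kap y := by
      rw [Finset.sum_mul_sum]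
      exact Finset.sum_congr rfl fun x _ => Finset.sum_congr rfl fun y _ => kap_mul x y
    rw [h2] at h
    rw [rr, rr, rr]
    linear_combination h / 4

theorem N2b_AB_pow {p : ℕ} (hp : p.Prime) (i : ℕ) :
    (N2b_A * N2b_B) (p ^ i) = ∑ j ∈ Finset.range (i + 1), av p ^ j * bv p ^ (i - j) := by
  rw [ArithmeticFunction.mul_apply,
    Nat.sum_divisorsAntidiagonal (fun a b => N2b_A a * N2b_B b), Nat.sum_divisors_prime_pow hp]
  refine Finset.sum_congr rfl fun j hj => ?_
  have hj' : j ≤ i := by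
    have := Finset.mem_range.1 hj
    omega
  rw [Nat.pow_div hj' hp.pos]
  change aa (p ^ j) * bb (p ^ (i - j)) = _
  rw [N2b_av_pow hp, N2b_bv_pow hp]

theorem N2b_norm_eq (x : Zs) : x.norm = x.re * x.re + 2 * (x.im * x.im) := by
  rw [Zsqrtd.norm_def]
  ring

/-- residues modulo 8 of the norm -/
theorem N2b_im_even {x : Zs} {p : ℕ} (hx : x.norm = p) (h : p % 8 = 1) :
    x.re % 2 = 1 ∧ x.im % 2 = 0 := by
  rw [N2b_norm_eq] at hx
  have h1 : ((p : ℤ)) % 8 = 1 := by omega
  have hr : x.re % 2 = 0 ∨ x.re % 2 = 1 := by omega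
  have hi : x.im % 2 = 0 ∨ x.im % 2 = 1 := by omega
  rcases hr with hr | hr
  · exfalso
    obtain ⟨a, ha⟩ : ∃ a, x.re = 2 * a := ⟨x.re / 2, by omega⟩
    have : (p : ℤ) = 2 * (2 * (a * a) + x.im * x.im) := by rw [← hx, ha]; ring
    omega
  · rcases hi with hi | hi
    · exact ⟨hr, hi⟩
    · exfalso
      obtain ⟨a, ha⟩ : ∃ a, x.re = 2 * a + 1 := ⟨x.re / 2, by omega⟩
      obtain ⟨b, hb⟩ : ∃ b, x.im = 2 * b + 1 := ⟨x.im / 2, by omega⟩
      obtain ⟨c, hc⟩ : ∃ c, a * (a + 1) = 2 * c := by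
        rcases Int.even_mul_succ_self a with ⟨c, hc⟩
        exact ⟨c, by rw [hc]; ring⟩
      obtain ⟨d, hd⟩ : ∃ c, b * (b + 1) = 2 * c := by
        rcases Int.even_mul_succ_self b with ⟨c, hc⟩
        exact ⟨c, by rw [hc]; ring⟩
      have : (p : ℤ) = 8 * c + 16 * d + 3 := by
        rw [← hx, ha, hb]
        linear_combination 4 * hc + 8 * hd
      omega

theorem N2b_im_odd {x : Zs} {p : ℕ} (hx : x.norm = p) (h : p % 8 = 3) :
    x.re % 2 = 1 ∧ x.im % 2 = 1 := by
  rw [N2b_norm_eq] at hx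
  have h1 : ((p : ℤ)) % 8 = 3 := by omega
  have hr : x.re % 2 = 0 ∨ x.re % 2 = 1 := by omega
  have hi : x.im % 2 = 0 ∨ x.im % 2 = 1 := by omega
  rcases hr with hr | hr
  · exfalso
    obtain ⟨a, ha⟩ : ∃ a, x.re = 2 * a := ⟨x.re / 2, by omega⟩
    have : (p : ℤ) = 2 * (2 * (a * a) + x.im * x.im) := by rw [← hx, ha]; ring
    omega
  · rcases hi with hi | hi
    · exfalso
      obtain ⟨a, ha⟩ : ∃ a, x.re = 2 * a + 1 := ⟨x.re / 2, by omega⟩
      obtain ⟨b, hb⟩ : ∃ b, x.im = 2 * b := ⟨x.im / 2, by omega⟩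
      obtain ⟨c, hc⟩ : ∃ c, a * (a + 1) = 2 * c := by
        rcases Int.even_mul_succ_self a with ⟨c, hc⟩
        exact ⟨c, by rw [hc]; ring⟩
      have : (p : ℤ) = 8 * c + 8 * (b * b) + 1 := by
        rw [← hx, ha, hb]
        linear_combination 4 * hc
      omega
    · exact ⟨hr, hi⟩

theorem N2b_kap_even {x : Zs} (h : x.re % 2 = 1 ∧ x.im % 2 = 0) : kap x = 1 ∨ kap x = -1 := by
  unfold kap
  have h1 : ¬ x.re % 2 = 0 := by omega
  rw [if_neg h1]
  by_cases h2 : x.im % 4 = 0
  · rw [if_pos h2]; exact Or.inl rfl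
  · have h3 : x.im % 4 = 2 := by omega
    rw [if_neg h2, if_pos h3]; exact Or.inr rfl

theorem N2b_kap_odd {x : Zs} (h : x.re % 2 = 1 ∧ x.im % 2 = 1) :
    kap x = Complex.I ∨ kap x = -Complex.I := by
  unfold kap
  have h1 : ¬ x.re % 2 = 0 := by omega
  have h2 : ¬ x.im % 4 = 0 := by omega
  have h3 : ¬ x.im % 4 = 2 := by omega
  rw [if_neg h1, if_neg h2, if_neg h3]
  split_ifs
  · exact Or.inl rfl
  · exact Or.inr rfl

theorem N2b_kap_nat {n : ℕ} (hn : n % 2 = 1) : kap ((n : ℕ) : Zs) = 1 := by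
  unfold kap
  have h1 : ¬ ((n : ℕ) : Zs).re % 2 = 0 := by
    rw [Zsqrtd.re_natCast]
    omega
  have h2 : ((n : ℕ) : Zs).im % 4 = 0 := by
    rw [Zsqrtd.im_natCast]
    norm_num
  rw [if_neg h1, if_pos h2]

/-- `rr` at a power of a split prime -/
theorem N2b_split {p : ℕ} (hp : p.Prime) (h : p % 8 = 1 ∨ p % 8 = 3) :
    ∃ ρ : Zs, ρ.norm = p ∧ ∀ k, rr (p ^ k) =
      ∑ j ∈ Finset.range (k + 1), kap ρ ^ j * (starRingEnd ℂ) (kap ρ) ^ (k - j) := by
  obtain ⟨ρ, hρ, hs⟩ := SN_split hp h
  refine ⟨ρ, hρ, fun k => ?_⟩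
  have h1 := hs k kap kap_neg
  rw [rr, h1]
  have h2 : ∑ j ∈ Finset.range (k + 1), kap (ρ ^ j * star ρ ^ (k - j)) =
      ∑ j ∈ Finset.range (k + 1), kap ρ ^ j * (starRingEnd ℂ) (kap ρ) ^ (k - j) := by
    refine Finset.sum_congr rfl fun j _ => ?_
    rw [kap_mul, N2b_kap_pow, N2b_kap_pow, kap_star]
  rw [h2]
  ring

theorem N2b_pow_eq {p : ℕ} (hp : p.Prime) (i : ℕ) :
    rr (p ^ i) = ∑ j ∈ Finset.range (i + 1), av p ^ j * bv p ^ (i - j) := by
  by_cases h2 : p = 2
  · subst h2
    have e1 : av 2 = 0 := by unfold av; norm_num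
    have e2 : bv 2 = 0 := by unfold bv; norm_num
    have e3 : kap sq = 0 := by
      unfold kap
      have : (sq : Zs).re % 2 = 0 := by norm_num
      rw [if_pos this]
    have h := SN_two i kap kap_neg
    rw [rr, h, N2b_kap_pow, e1, e2, e3]
    rcases Nat.eq_zero_or_pos i with rfl | hi
    · simp
    · rw [zero_pow hi.ne', mul_zero, zero_div]
      symm
      refine Finset.sum_eq_zero fun j hj => ?_
      have hj' := Finset.mem_range.1 hj
      by_cases hj0 : j = 0
      · subst hj0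
        rw [Nat.sub_zero, zero_pow hi.ne', mul_zero]
      · rw [zero_pow hj0, zero_mul]
  have hodd : p % 2 = 1 := (hp.eq_two_or_odd).resolve_left h2
  have hcases : p % 8 = 1 ∨ p % 8 = 3 ∨ p % 8 = 5 ∨ p % 8 = 7 := by omega
  rcases hcases with h | h | h | h
  · -- `p = 1 mod 8`
    obtain ⟨ρ, hρ, hs⟩ := N2b_split hp (Or.inl h)
    have hk := N2b_kap_even (N2b_im_even hρ h)
    have hconj : (starRingEnd ℂ) (kap ρ) = kap ρ := by
      rcases hk with hk | hk <;> rw [hk] <;> simp
    have h1 := hs 1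
    rw [pow_one, hconj, Finset.sum_range_succ, Finset.sum_range_one] at h1
    have hav : av p = kap ρ := by
      unfold av
      rw [if_pos h, h1]
      simp
    have hbv : bv p = kap ρ := by
      unfold bv
      rw [if_pos h, h1]
      simp
    rw [hs i, hav, hbv, hconj]
  · -- `p = 3 mod 8`
    obtain ⟨ρ, hρ, hs⟩ := N2b_split hp (Or.inr h)
    have hk := N2b_kap_odd (N2b_im_odd hρ h)
    have hav : av p = Complex.I := by
      unfold av
      rw [if_neg (by omega), if_pos h]
    have hbv : bv p = -Complex.I := by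
      unfold bv
      rw [if_neg (by omega), if_pos h]
    rw [hs i, hav, hbv]
    rcases hk with hk | hk
    · rw [hk, Complex.conj_I]
    · rw [hk, map_neg, Complex.conj_I, neg_neg]
      rw [← Finset.sum_range_reflect]
      refine Finset.sum_congr rfl fun j hj => ?_
      have hj' : j ≤ i := by
        have := Finset.mem_range.1 hj
        omega
      have e1 : i + 1 - 1 - j = i - j := by omega
      have e2 : i - (i + 1 - 1 - j) = j := by omega
      rw [e2, e1, mul_comm]
  all_goals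
    have h57 : p % 8 = 5 ∨ p % 8 = 7 := by omega
    have hav : av p = 1 := by
      unfold av
      rw [if_neg (by omega), if_neg (by omega), if_pos h57]
    have hbv : bv p = -1 := by
      unfold bv
      rw [if_neg (by omega), if_neg (by omega), if_pos h57]
    have hs := SN_inert hp h57 i kap kap_neg
    rw [rr, hs, hav, hbv, N2b_kap_nat (by
      have : Odd (p ^ (i / 2)) := (Nat.odd_iff.2 hodd).pow
      exact Nat.odd_iff.1 this)]
    have key : ∀ n : ℕ, ∑ j ∈ Finset.range (n + 1), (1:ℂ) ^ j * (-1) ^ (n - j) =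
        if Even n then 1 else 0 := by
      intro n
      have e1 : ∑ j ∈ Finset.range (n + 1), (1:ℂ) ^ j * (-1) ^ (n - j) =
          ∑ j ∈ Finset.range (n + 1), (-1:ℂ) ^ j := by
        rw [← Finset.sum_range_reflect]
        refine Finset.sum_congr rfl fun j hj => ?_
        have hj' : j ≤ n := by
          have := Finset.mem_range.1 hj
          omega
        have e2 : n - (n + 1 - 1 - j) = j := by omega
        rw [e2, one_pow, one_mul]
      rw [e1]
      induction n with
      | zero => simp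
      | succ n ih =>
        rw [Finset.sum_range_succ]
        have ih' : ∑ j ∈ Finset.range (n + 1), (-1:ℂ) ^ j = if Even n then 1 else 0 := by
          apply ih
          rw [← Finset.sum_range_reflect]
          refine Finset.sum_congr rfl fun j hj => ?_
          have hj' : j ≤ n := by
            have := Finset.mem_range.1 hj
            omega
          have e2 : n - (n + 1 - 1 - j) = j := by omega
          rw [e2, one_pow, one_mul]
        rw [ih']
        rcases Nat.even_or_odd n with he | ho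
        · have hne : ¬ Even (n + 1) := by
            rw [Nat.even_add_one]; simpa using he
          rw [if_pos he, if_neg hne, pow_succ, he.neg_one_pow]
          norm_num
        · have hne : ¬ Even n := Nat.not_even_iff_odd.2 ho
          have he : Even (n + 1) := ho.add_one
          rw [if_neg hne, if_pos he, he.neg_one_pow]
          norm_num
    rw [key i]
    split_ifs <;> norm_num

theorem rr_conv {n : ℕ} (hn : n ≠ 0) : rr n = ∑ d ∈ n.divisors, aa d * bb (n / d) := by
  have h : N2b_R = N2b_A * N2b_B := by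
    rw [ArithmeticFunction.IsMultiplicative.eq_iff_eq_on_prime_powers _ N2b_R_mult _
      (N2b_A_mult.mul N2b_B_mult)]
    intro p i hp
    rw [N2b_R_apply (pow_ne_zero _ hp.ne_zero), N2b_AB_pow hp, N2b_pow_eq hp]
  have h1 : N2b_R n = (N2b_A * N2b_B) n := by rw [h]
  rw [N2b_R_apply hn, ArithmeticFunction.mul_apply,
    Nat.sum_divisorsAntidiagonal (fun a b => N2b_A a * N2b_B b)] at h1
  exact h1

end Pool.Agent.TM32
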